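import Pool.Agent.Q201.SY.Up
import Pool.Agent.Q201.SY.Low

/-!
# Automata whose k-game length is cubic in the number of states

The game (in `Pool.Agent.Q201.SY.Game`): a DFA is a total map `δ : Q → A → Q` on finite
non-empty types; `step δ P a = P · a`, `run δ P w = P · w`.  A strategy of Alice is a map
from the list of the previous answers of Bob to letters; `b 0, b 1, …` are the answers of
Bob, all of length at most `k` (`Legal k b`); `pos δ P σ b i` is the current set before
round `i`, and `WinsAt δ P σ b i` says that the letter of Alice in round `i` makes it a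
singleton.  `IsA δ k`: some strategy wins against all answers.  `WinsWithin δ k N`: some
strategy wins within at most `N` moves of Alice.  `gameLength δ k` is the least such `N`.
-/

namespace Pool.Agent.Results.MP_3d7070_lc.CubicGameLength

open Filter Pool.Q201.SY

/-- A DFA: finite non-empty sets of states and of letters with a total transition map. -/
structure Auto where
  /-- the states -/
  Q : Type
  /-- the letters -/
  A : Type
  [fQ : Fintype Q]
  [dQ : DecidableEq Q]
  [nQ : Nonempty Q]
  [fA : Fintype A]
  [nA : Nonempty A]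
  /-- the transition map -/
  δ : Q → A → Q

attribute [instance] Auto.fQ Auto.dQ Auto.nQ Auto.fA Auto.nA

/-- The number of states. -/
def Auto.numStates (M : Auto) : ℕ := Fintype.card M.Q

/-- The `k`-game length `L_k` of a DFA. -/
noncomputable def Auto.length (M : Auto) (k : ℕ) : ℕ := gameLength M.δ k

/-- The automaton number `m` for the parameter `k`. -/
noncomputable def theAuto (m k : ℕ) : Auto where
  Q := Base m × Fin (k + 2)
  A := Letter m
  δ := delta m k

theorem numStates_theAuto (m k : ℕ) : (theAuto m k).numStates = (2 * m + 7) * (k + 2) := by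
  change Fintype.card (Base m × Fin (k + 2)) = _
  rw [Fintype.card_prod, Fintype.card_fin, Fintype.card_sum, ZMod.card, ZMod.card]
  congr 1
  ring

theorem length_theAuto (m k : ℕ) (hk : 1 ≤ k) :
    (m + 3) ^ 3 < 2 * (theAuto m k).length k := by
  by_contra hc
  obtain ⟨N, hN⟩ := exists_winsWithin m k
  exact not_winsWithin hk (not_lt.1 hc) (winsWithin_gameLength _ hN)

/-- For every `k ≥ 1` there is a sequence of `A_k`-automata whose `k`-game lengths grow
like the cube of the number of states; in particular they grow faster than every quadratic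
function. -/
theorem result : ∀ k : ℕ, 1 ≤ k → ∃ M : ℕ → Auto,
    (∀ i, (M i).numStates = (2 * i + 7) * (k + 2)) ∧
    (∀ i, IsA (M i).δ k ∧ WinsWithin (M i).δ k ((M i).length k)) ∧
    (∀ i, (M i).numStates ^ 3 ≤ 54 * (k + 2) ^ 3 * (M i).length k) ∧
    Tendsto (fun i => (M i).numStates) atTop atTop ∧
    Tendsto (fun i => ((M i).length k : ℝ) / ((M i).numStates : ℝ) ^ 2) atTop atTop := by
  intro k hk
  have hcube : ∀ i, (theAuto i k).numStates ^ 3 ≤
      54 * (k + 2) ^ 3 * (theAuto i k).length k := by
    intro i
    have h1 := length_theAuto i k hk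
    rw [numStates_theAuto, mul_pow]
    have h2 : (2 * i + 7) ^ 3 ≤ 27 * (i + 3) ^ 3 := by
      have : 2 * i + 7 ≤ 3 * (i + 3) := by omega
      calc (2 * i + 7) ^ 3 ≤ (3 * (i + 3)) ^ 3 := Nat.pow_le_pow_left this 3
        _ = 27 * (i + 3) ^ 3 := by ring
    calc (2 * i + 7) ^ 3 * (k + 2) ^ 3
        ≤ (27 * (i + 3) ^ 3) * (k + 2) ^ 3 := Nat.mul_le_mul_right _ h2
      _ ≤ (27 * (2 * (theAuto i k).length k)) * (k + 2) ^ 3 :=
          Nat.mul_le_mul_right _ (Nat.mul_le_mul_left _ h1.le)
      _ = 54 * (k + 2) ^ 3 * (theAuto i k).length k := by ring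
  have hn : Tendsto (fun i => (theAuto i k).numStates) atTop atTop := by
    refine tendsto_atTop_mono (f := fun i : ℕ => i) (fun i => ?_) tendsto_id
    rw [numStates_theAuto]
    nlinarith
  refine ⟨fun i => theAuto i k, fun i => numStates_theAuto i k, fun i => ?_, hcube, hn, ?_⟩
  · obtain ⟨N, hN⟩ := exists_winsWithin i k
    exact ⟨isA_of_winsWithin _ hN, winsWithin_gameLength _ hN⟩
  · have hn' : Tendsto (fun i => ((theAuto i k).numStates : ℝ) / (54 * ((k : ℝ) + 2) ^ 3))
        atTop atTop := by
      apply Tendsto.atTop_div_const (by positivity)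
      exact tendsto_natCast_atTop_atTop.comp hn
    refine tendsto_atTop_mono (fun i => ?_) hn'
    have h0 : (0 : ℝ) < ((theAuto i k).numStates : ℝ) := by
      have : 0 < (theAuto i k).numStates := by
        rw [numStates_theAuto]; positivity
      exact_mod_cast this
    have h1 : ((theAuto i k).numStates : ℝ) ^ 3 ≤
        54 * ((k : ℝ) + 2) ^ 3 * ((theAuto i k).length k : ℝ) := by
      exact_mod_cast hcube i
    rw [div_le_div_iff₀ (by positivity) (by positivity)]
    calc ((theAuto i k).numStates : ℝ) * ((theAuto i k).numStates : ℝ) ^ 2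
        = ((theAuto i k).numStates : ℝ) ^ 3 := by ring
      _ ≤ 54 * ((k : ℝ) + 2) ^ 3 * ((theAuto i k).length k : ℝ) := h1
      _ = ((theAuto i k).length k : ℝ) * (54 * ((k : ℝ) + 2) ^ 3) := by ring

end Pool.Agent.Results.MP_3d7070_lc.CubicGameLength
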